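import Pool.Agent.MHP.Stmts

/-!
# CMP: components of `glue H u Z r`, `u` isolated in `H` (squad MHP)
-/

set_option autoImplicit false

namespace Pool.Agent.MHP.H29

open Pool.Agent.MHP

theorem reach_iff {V₁ V₂ : Type} (G₁ : SimpleGraph V₁) (G₂ : SimpleGraph V₂) (f : V₁ → V₂)
    (S : Set V₁) (a : V₁) (ha : a ∈ S) (hS : ∀ x ∈ S, ∀ y, G₁.Adj x y → y ∈ S)
    (h1 : ∀ x y, G₁.Adj x y → G₂.Adj (f x) (f y))
    (h2 : ∀ x ∈ S, ∀ y, G₂.Adj (f x) y → ∃ x', y = f x' ∧ G₁.Adj x x') (y : V₂) :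
    G₂.Reachable (f a) y ↔ ∃ x, y = f x ∧ G₁.Reachable a x ∧ x ∈ S := by
  constructor
  · intro h
    rw [SimpleGraph.reachable_iff_reflTransGen] at h
    induction h with
    | refl => exact ⟨a, rfl, SimpleGraph.Reachable.refl _, ha⟩
    | tail _ hbc ih =>
      obtain ⟨x, rfl, hx, hxS⟩ := ih
      obtain ⟨x', rfl, hx'⟩ := h2 x hxS _ hbc
      exact ⟨x', rfl, hx.trans hx'.reachable, hS x hxS x' hx'⟩
  · rintro ⟨x, rfl, hx, _⟩
    exact hx.map (⟨f, fun {x y} h => h1 x y h⟩ : G₁ →g G₂)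

theorem comp_iso {V₁ V₂ : Type} [Finite V₁] [Finite V₂] (G₁ : SimpleGraph V₁)
    (G₂ : SimpleGraph V₂) (f : V₁ → V₂) (hf : Function.Injective f)
    (S : Set V₁) (a : V₁) (ha : a ∈ S) (hS : ∀ x ∈ S, ∀ y, G₁.Adj x y → y ∈ S)
    (h1 : ∀ x y, G₁.Adj x y → G₂.Adj (f x) (f y))
    (h2 : ∀ x ∈ S, ∀ y, G₂.Adj (f x) y → ∃ x', y = f x' ∧ G₁.Adj x x') (b : V₂) (hb : f a = b) :
    PIso (PG.mk V₂ G₂ b).comp (PG.mk V₁ G₁ a).comp := by
  subst hb
  have hr := reach_iff G₁ G₂ f S a ha hS h1 h2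
  have hmem : ∀ x, G₁.Reachable a x → x ∈ S := by
    intro x hx
    obtain ⟨x', e, _, h⟩ := (hr (f x)).1 (hx.map (⟨f, fun {x y} h => h1 x y h⟩ : G₁ →g G₂))
    rw [hf e]
    exact h
  let g : {x : V₁ // G₁.Reachable a x} → {y : V₂ // G₂.Reachable (f a) y} :=
    fun x => ⟨f x.1, x.2.map (⟨f, fun {x y} h => h1 x y h⟩ : G₁ →g G₂)⟩
  have hg : Function.Bijective g := by
    constructor
    · intro x y h
      exact Subtype.ext (hf (congrArg Subtype.val h))
    · rintro ⟨y, hy⟩
      obtain ⟨x, rfl, hx, _⟩ := (hr y).1 hy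
      exact ⟨⟨x, hx⟩, rfl⟩
  let e := Equiv.ofBijective g hg
  have hadj : ∀ x y : {x : V₁ // G₁.Reachable a x},
      G₂.Adj (f x.1) (f y.1) ↔ G₁.Adj x.1 y.1 := by
    intro x y
    constructor
    · intro h
      obtain ⟨x', e, h'⟩ := h2 x.1 (hmem x.1 x.2) _ h
      rw [hf e]
      exact h'
    · exact h1 _ _
  refine ⟨({ toEquiv := e, map_rel_iff' := fun {x y} => hadj x y } :
    (PG.mk V₁ G₁ a).comp.G ≃g (PG.mk V₂ G₂ (f a)).comp.G).symm, ?_⟩
  exact (Equiv.symm_apply_eq e).2 (Subtype.ext rfl)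

theorem cmp : CmpStmt := by
  classical
  intro U V _ _ H u Z r hu
  -- the embedding of `Z`
  let α : V → U ⊕ {v : V // v ≠ r} := fun v => if h : v = r then Sum.inl u else Sum.inr ⟨v, h⟩
  have αr : α r = Sum.inl u := dif_pos rfl
  have αn : ∀ v (h : v ≠ r), α v = Sum.inr ⟨v, h⟩ := fun v h => dif_neg h
  have αinj : Function.Injective α := by
    intro v w h
    by_cases hv : v = r
    · by_cases hw : w = r
      · rw [hv, hw]
      · rw [hv, αr, αn w hw] at h
        exact absurd h (by simp)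
    · by_cases hw : w = r
      · rw [hw, αr, αn v hv] at h
        exact absurd h (by simp)
      · rw [αn v hv, αn w hw] at h
        have := Sum.inr_injective h
        exact congrArg Subtype.val this
  have a1 : ∀ v w, Z.Adj v w → (glue H u Z r).Adj (α v) (α w) := by
    intro v w h
    by_cases hv : v = r
    · by_cases hw : w = r
      · rw [hv, hw] at h
        exact absurd h (Z.irrefl)
      · rw [hv] at h
        rw [hv, αr, αn w hw]
        exact ⟨rfl, h⟩
    · by_cases hw : w = r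
      · rw [hw] at h
        rw [hw, αr, αn v hv]
        exact ⟨rfl, h.symm⟩
      · rw [αn v hv, αn w hw]
        exact h
  have a2 : ∀ v ∈ (Set.univ : Set V), ∀ y, (glue H u Z r).Adj (α v) y →
      ∃ w, y = α w ∧ Z.Adj v w := by
    intro v _ y h
    by_cases hv : v = r
    · rw [hv, αr] at h
      rcases y with y | y
      · exact absurd h (hu y)
      · exact ⟨y.1, (αn y.1 y.2).symm, by rw [hv]; exact h.2⟩
    · rw [αn v hv] at h
      rcases y with y | y
      · obtain ⟨h3, h4⟩ := h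
        exact ⟨r, by rw [αr, h3], h4.symm⟩
      · exact ⟨y.1, (αn y.1 y.2).symm, h⟩
  have b1 : ∀ v w, H.Adj v w → (glue H u Z r).Adj (Sum.inl v) (Sum.inl w) := fun v w h => h
  have bS : ∀ x ∈ {w : U | w ≠ u}, ∀ y, H.Adj x y → y ∈ {w : U | w ≠ u} := by
    intro x _ y h hy
    rw [hy] at h
    exact hu x h.symm
  have b2 : ∀ x ∈ {w : U | w ≠ u}, ∀ y, (glue H u Z r).Adj (Sum.inl x) y →
      ∃ x', y = Sum.inl x' ∧ H.Adj x x' := by
    intro x hx y h
    rcases y with y | y
    · exact ⟨y, rfl, h⟩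
    · exact absurd h.1 hx
  have RZ := reach_iff Z (glue H u Z r) α Set.univ r trivial (fun _ _ _ _ => trivial) a1 a2
  have RH : ∀ w : U, w ≠ u → ∀ y, (glue H u Z r).Reachable (Sum.inl w) y ↔
      ∃ x, y = Sum.inl x ∧ H.Reachable w x ∧ x ∈ {w : U | w ≠ u} := fun w hw =>
    reach_iff H (glue H u Z r) Sum.inl {w : U | w ≠ u} w hw bS b1 b2
  rw [αr] at RZ
  refine ⟨?_, ?_, ?_, ?_⟩
  · exact comp_iso Z (glue H u Z r) α αinj Set.univ r trivial (fun _ _ _ _ => trivial) a1 a2 _ αr
  · intro w hw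
    exact comp_iso H (glue H u Z r) Sum.inl Sum.inl_injective {w : U | w ≠ u} w hw bS b1 b2 _ rfl
  · intro w w'
    by_cases hw : w = u
    · subst hw
      have hiso : H.Reachable w w' ↔ w' = w := by
        constructor
        · intro h
          rw [SimpleGraph.reachable_iff_reflTransGen] at h
          rcases Relation.ReflTransGen.cases_head h with h | ⟨c, hc, _⟩
          · exact h.symm
          · exact absurd hc (hu c)
        · rintro rfl
          exact SimpleGraph.Reachable.refl _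
      rw [hiso, RZ]
      constructor
      · rintro ⟨v, hv, _⟩
        by_cases hvr : v = r
        · rw [hvr, αr] at hv
          exact Sum.inl_injective hv
        · rw [αn v hvr] at hv
          exact absurd hv (by simp)
      · rintro rfl
        exact ⟨r, αr.symm, SimpleGraph.Reachable.refl _, trivial⟩
    · rw [RH w hw]
      constructor
      · rintro ⟨x, hx, h, _⟩
        rw [Sum.inl_injective hx]
        exact h
      · intro h
        have h2 := (RH w hw (Sum.inl w')).1
          (h.map (⟨Sum.inl, fun {x y} h => b1 x y h⟩ : H →g glue H u Z r))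
        obtain ⟨x, hx, _, h3⟩ := h2
        refine ⟨w', rfl, h, ?_⟩
        rw [Sum.inl_injective hx]
        exact h3
  · intro v
    rw [RZ]
    constructor
    · rintro ⟨x, hx, h, _⟩
      by_cases hxr : x = r
      · rw [hxr, αr] at hx
        exact absurd hx (by simp)
      · rw [αn x hxr] at hx
        have := congrArg Subtype.val (Sum.inr_injective hx)
        rw [this]
        exact h
    · intro h
      exact ⟨v.1, (αn v.1 v.2).symm, h, trivial⟩

end Pool.Agent.MHP.H29
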